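import Pool.Agent.K3h54.PM.Main

/-!
# Clusters of palindromes with few prime factors which differ only in the middle digits

For every base `b` and every `m` there are `m` palindromes with at most three (`b ≥ 9`), four (`3 ≤ b ≤ 8`), five
(`b = 2`) prime factors among a bounded number of consecutive palindromes: bounded gaps between almost prime
palindromes.
-/

set_option autoImplicit false

namespace Pool.Agent.Results.MP_e8d2ce_nt.MiddleDigitClusters

open Finset Filter

open Classical in
/-- Let `b ≥ 2`, and let `r = 3` if `b ≥ 9`, `r = 4` if `3 ≤ b ≤ 8` and `r = 5` if `b = 2`. For every `m` there is a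
number `K` with the following property. Let `S` be a set of at least `K` strings `y = (y_g, …, y_1, y_0)` of `g + 1`
base-`b` digits (as numbers `y < b ^ (g + 1)`, with `y_0 = y % b`), all with odd `y_0` if `b` is odd. For all large `N`
there are a set `H` of `m` elements of `S` and at least `(3 b / 4) ^ N` strings `w` of `N - g` digits such that for each
`y` in `H` the palindrome `n` with exactly `2 N + 1` digits, with the leading digits `w` and the `2 g + 1` middle digits
`y_g … y_1 y_0 y_1 … y_g` has at most `r` prime factors (counted with multiplicity), all of them at least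
`b ^ (N / 11)`. (In Lean: `n / b ^ (N + 1 + g) = w` and `n / b ^ N % b ^ (g + 1) = y`.) In particular these `m`
palindromes differ by less than `b ^ (N + 1 + g)`, and at most `b ^ (g + 1)` palindromes lie between them. -/
theorem result (b : ℕ) (hb : 2 ≤ b) (m : ℕ) : ∃ K : ℕ, ∀ (g : ℕ) (S : Finset ℕ), K ≤ S.card →
    (∀ y ∈ S, y < b ^ (g + 1) ∧ (Even b ∨ Odd (y % b))) → ∀ᶠ N : ℕ in atTop,
    ∃ H ⊆ S, H.card = m ∧ (3 * (b : ℝ) / 4) ^ N ≤ (((range (b ^ (N - g))).filter (fun w => ∀ y ∈ H, ∃ n : ℕ,
      b ^ (2 * N) ≤ n ∧ n < b ^ (2 * N + 1) ∧ (Nat.digits b n).reverse = Nat.digits b n ∧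
      n / b ^ N % b ^ (g + 1) = y ∧ n / b ^ (N + 1 + g) = w ∧
      n.primeFactorsList.length ≤ (if 9 ≤ b then 3 else if 3 ≤ b then 4 else 5) ∧
      ∀ p : ℕ, p.Prime → p ∣ n → (b : ℝ) ^ ((N : ℝ) / 11) ≤ p)).card : ℝ) :=
  Pool.Agent.K3h54.PM.fin b hb m

end Pool.Agent.Results.MP_e8d2ce_nt.MiddleDigitClusters
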