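import Mathlib
import Pool.Agent.K3h35.MP.H

/-!
# Primes whose digits are palindromic in the middle third, in every base

Let `b ≥ 2` and `ε > 0`.  For all large `k`, all `j` with `(1/3 + ε) k ≤ j ≤ k/2` and all `x ≤ y ≤ b^k`:

(1) the primes in `(x, y]` whose base-`b` digits in the places `j, …, k - 1 - j` read the same in reverse have the
expected density `b^(-⌊(k-2j)/2⌋)` among the primes in `(x, y]`, with a power saving error term;

(2) for at least one sixth of the palindromes `n` with exactly `k` digits there is a prime `p` which agrees with `n` in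
all digits except possibly the last `j` ones; so `|p - n| < b^j`, which is about `n^(1/3+ε)` for the smallest `j`.
-/

set_option autoImplicit false

namespace Pool.Agent.Results.MP_e8d2ce_nt.MiddleThird

open Filter

/-- the digits of `n` in base `b` in the places `j, …, k - 1 - j` read the same in reverse -/
def MiddlePalindromic (b k j n : ℕ) : Prop :=
  ∀ i : ℕ, j ≤ i → i < k - j → n / b ^ i % b = n / b ^ (k - 1 - i) % b

/-- `n` has exactly `k` digits in base `b`, and they read the same in reverse -/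
def IsPalindrome (b k n : ℕ) : Prop := b ^ (k - 1) ≤ n ∧ n < b ^ k ∧ MiddlePalindromic b k 0 n

theorem result (b : ℕ) (hb : 2 ≤ b) (ε : ℝ) (hε : 0 < ε) : ∀ᶠ k : ℕ in atTop, ∀ j : ℕ,
    (1 / 3 + ε) * k ≤ j → 2 * j ≤ k →
    (∀ x y : ℕ, x ≤ y → y ≤ b ^ k →
      |({p : ℕ | x < p ∧ p ≤ y ∧ p.Prime ∧ MiddlePalindromic b k j p}.ncard : ℝ) -
          {p : ℕ | x < p ∧ p ≤ y ∧ p.Prime}.ncard / (b : ℝ) ^ ((k - 2 * j) / 2)| ≤
        (b : ℝ) ^ ((1 - ε / 8) * k) / (b : ℝ) ^ ((k - 2 * j) / 2)) ∧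
    {n : ℕ | IsPalindrome b k n}.ncard ≤
      6 * {n : ℕ | IsPalindrome b k n ∧ ∃ p : ℕ, p.Prime ∧ p / b ^ j = n / b ^ j}.ncard := by
  classical
  filter_upwards [Pool.Agent.K3h35.MP.main_bound hb hε, Pool.Agent.K3h35.MP.near hb hε] with k h1 h2 j hj1 hj2
  constructor
  · intro x y hxy hy
    have h := h1 j hj1 hj2 x y hxy hy
    have e1 : {p : ℕ | x < p ∧ p ≤ y ∧ p.Prime ∧ MiddlePalindromic b k j p} =
        (((Finset.Ioc x y).filter (fun p => p.Prime ∧
          (p / b ^ j) % b ^ (k - 2 * j) ∈ Pool.Agent.K3h35.MP.PI b (k - 2 * j)) : Finset ℕ) : Set ℕ) := by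
      ext p
      rw [Finset.mem_coe, Finset.mem_filter, Finset.mem_Ioc, Set.mem_ofPred_eq,
        Pool.Agent.K3h35.MP.pal_iff hb j (k - 2 * j) p]
      have e3 : MiddlePalindromic b k j p ↔ ∀ i : ℕ, j ≤ i → i < j + (k - 2 * j) →
          p / b ^ i % b = p / b ^ (2 * j + (k - 2 * j) - 1 - i) % b := by
        unfold MiddlePalindromic
        rw [show j + (k - 2 * j) = k - j by omega, show 2 * j + (k - 2 * j) = k by omega]
      rw [e3]
      tauto
    have e2 : {p : ℕ | x < p ∧ p ≤ y ∧ p.Prime} = (((Finset.Ioc x y).filter Nat.Prime : Finset ℕ) : Set ℕ) := by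
      ext p
      rw [Finset.mem_coe, Finset.mem_filter, Finset.mem_Ioc, Set.mem_ofPred_eq]
      tauto
    rw [e1, e2, Set.ncard_coe_finset, Set.ncard_coe_finset, div_eq_mul_one_div, mul_comm _ (1 / _)]
    exact h
  · have h := h2 j hj1 hj2
    have hP : ∀ n, IsPalindrome b k n ↔ n ∈ Finset.Ico (b ^ (k - 1)) (b ^ k) ∧
        ∀ i, i < k → n / b ^ i % b = n / b ^ (k - 1 - i) % b := by
      intro n
      unfold IsPalindrome MiddlePalindromic
      rw [Finset.mem_Ico, and_assoc]
      simp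
    have e1 : {n : ℕ | IsPalindrome b k n} = (((Finset.Ico (b ^ (k - 1)) (b ^ k)).filter
        (fun n => ∀ i, i < k → n / b ^ i % b = n / b ^ (k - 1 - i) % b) : Finset ℕ) : Set ℕ) := by
      ext n
      rw [Finset.mem_coe, Finset.mem_filter, Set.mem_ofPred_eq, hP]
    have e2 : {n : ℕ | IsPalindrome b k n ∧ ∃ p : ℕ, p.Prime ∧ p / b ^ j = n / b ^ j} =
        (((Finset.Ico (b ^ (k - 1)) (b ^ k)).filter
        (fun n => (∀ i, i < k → n / b ^ i % b = n / b ^ (k - 1 - i) % b) ∧
          ∃ p : ℕ, p.Prime ∧ p / b ^ j = n / b ^ j) : Finset ℕ) : Set ℕ) := by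
      ext n
      rw [Finset.mem_coe, Finset.mem_filter, Set.mem_ofPred_eq, hP, and_assoc]
    rw [e1, e2, Set.ncard_coe_finset, Set.ncard_coe_finset]
    convert h using 3

end Pool.Agent.Results.MP_e8d2ce_nt.MiddleThird
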