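import Pool.Agent.K3h54.PC.MainQ

/-!
# Clusters of palindromes with few prime factors which differ only in the outer digits
-/

set_option autoImplicit false

namespace Pool.Agent.Results.MP_e8d2ce_nt.OuterDigitClusters

open Finset Filter

open Classical in
/-- Let `b ≥ 2`, and let `r = 3` if `b ≥ 9`, `r = 4` if `3 ≤ b ≤ 8` and `r = 5` if `b = 2`. For every `m` there is a
number `K` such that for every `M` and every set `S` of at least `K` numbers with exactly `M` base-`b` digits whose
leading digit is coprime to `b`, and for all large `L`, there are a set `H` of `m` elements of `S` and at least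
`(3 b / 4) ^ L` strings `w` of `2 L + 1` digits such that for each `x` in `H` the palindrome `n` with `2 L + 1 + 2 M`
digits, leading digits `x` and inner digits `w` has at most `r` prime factors (counted with multiplicity), all of them
at least `b ^ (L / 10)`. -/
theorem result (b : ℕ) (hb : 2 ≤ b) (m : ℕ) : ∃ K : ℕ, ∀ (M : ℕ) (S : Finset ℕ), K ≤ S.card →
    (∀ x ∈ S, b ^ (M - 1) ≤ x ∧ x < b ^ M ∧ (x / b ^ (M - 1)).Coprime b) → ∀ᶠ L : ℕ in atTop,
    ∃ H ⊆ S, H.card = m ∧ (3 * (b : ℝ) / 4) ^ L ≤ (((range (b ^ (2 * L + 1))).filter (fun w =>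
      ∀ x ∈ H, ∃ n : ℕ, n < b ^ (2 * L + 1 + 2 * M) ∧ (Nat.digits b n).reverse = Nat.digits b n ∧
      n / b ^ (2 * L + 1 + M) = x ∧ n / b ^ M % b ^ (2 * L + 1) = w ∧
      n.primeFactorsList.length ≤ (if 9 ≤ b then 3 else if 3 ≤ b then 4 else 5) ∧
      ∀ p : ℕ, p.Prime → p ∣ n → (b : ℝ) ^ ((L : ℝ) / 10) ≤ p)).card : ℝ) :=
  Pool.Agent.K3h54.PC.finQ b hb m

end Pool.Agent.Results.MP_e8d2ce_nt.OuterDigitClusters
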